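import Mathlib
import Pool.Agent.H.MP_812062_gt.A

set_option autoImplicit false

open Set

namespace Pool.Agent.Results.MP_c087c9_gt.Ray

theorem result : ∃ (X : Type) (_ : MetricSpace X), ConnectedSpace X ∧
    (⨆ (Z : Set (X × X)) (_ : IsConnected Z) (_ : Prod.fst '' Z = univ ∧ Prod.snd '' Z = univ),
      ⨅ p ∈ Z, edist p.1 p.2) = 0 ∧
    (⨆ (Z : Set (X × X)) (_ : IsConnected Z) (_ : Prod.fst '' Z = univ ∨ Prod.snd '' Z = univ),
      ⨅ p ∈ Z, edist p.1 p.2) = ⊤ := by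
  have : ConnectedSpace NNReal := isConnected_iff_connectedSpace.1 (isConnected_Ici (a := (0 : ℝ)))
  refine ⟨NNReal, inferInstance, inferInstance, le_zero_iff.1 (iSup₂_le fun Z hZ => iSup_le
    fun h => ?_), ENNReal.eq_top_of_forall_nnreal_le fun r => le_iSup₂_of_le
      (range fun x => (x, x + r)) (isConnected_range (by fun_prop)) (le_iSup_of_le
        (.inl (eq_univ_of_forall fun x => ⟨_, ⟨x, rfl⟩, rfl⟩)) (le_iInf₂ ?_))⟩
  · obtain ⟨a, a1, a2⟩ := h.1.ge (mem_univ 0)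
    obtain ⟨b, b1, b2⟩ := h.2.ge (mem_univ 0)
    exact (H.MP_812062_gt.diag NNReal.continuous_coe NNReal.coe_injective hZ a1 b1
      (by simp [a2]) (by simp [b2])).le
  · rintro _ ⟨x, rfl⟩
    simp [edist_dist, NNReal.dist_eq]

end Pool.Agent.Results.MP_c087c9_gt.Ray
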